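import Mathlib
import Pool.Agent.R178.GT.Defs

/-! GT-EMB: tilings are carried to the lattice spanned by `d` and its quarter turn. -/

set_option autoImplicit false

namespace R178.GT

namespace EMBx

/-- the embedding -/
def io (d : ℤ × ℤ) (p : ℤ × ℤ) : ℤ × ℤ := (p.1 * d.1 - p.2 * d.2, p.1 * d.2 + p.2 * d.1)

theorem io_add (d p q : ℤ × ℤ) : io d (p + q) = io d p + io d q := by
  apply Prod.ext
  · simp only [io, Prod.fst_add, Prod.snd_add]
    ring
  · simp only [io, Prod.fst_add, Prod.snd_add]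
    ring

theorem io_neg (d p : ℤ × ℤ) : io d (-p) = -io d p := by
  apply Prod.ext
  · simp only [io, Prod.fst_neg, Prod.snd_neg]
    ring
  · simp only [io, Prod.fst_neg, Prod.snd_neg]
    ring

theorem io_zero (d : ℤ × ℤ) : io d 0 = 0 := by
  apply Prod.ext <;> simp [io]

theorem norm_ne {d : ℤ × ℤ} (h : d ≠ 0) : d.1 * d.1 + d.2 * d.2 ≠ 0 := by
  intro e
  apply h
  have h1 : d.1 = 0 := by nlinarith [mul_self_nonneg d.1, mul_self_nonneg d.2]
  have h2 : d.2 = 0 := by nlinarith [mul_self_nonneg d.1, mul_self_nonneg d.2]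
  exact Prod.ext h1 h2

theorem io_inj {d : ℤ × ℤ} (h : d ≠ 0) {p q : ℤ × ℤ} (e : io d p = io d q) :
    p = q := by
  have e1 := congrArg Prod.fst e
  have e2 := congrArg Prod.snd e
  simp only [io] at e1 e2
  have h1 : (d.1 * d.1 + d.2 * d.2) * (p.1 - q.1) = 0 := by
    linear_combination d.1 * e1 + d.2 * e2
  have h2 : (d.1 * d.1 + d.2 * d.2) * (p.2 - q.2) = 0 := by
    linear_combination d.1 * e2 - d.2 * e1
  apply Prod.ext
  · have h3 := (mul_eq_zero.1 h1).resolve_left (norm_ne h)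
    linarith
  · have h3 := (mul_eq_zero.1 h2).resolve_left (norm_ne h)
    linarith

theorem io_rot (d : ℤ × ℤ) (k : Fin 4) (s : ℤ × ℤ) :
    rot k (io d s) = io d (rot k s) := by
  fin_cases k
  · rfl
  · apply Prod.ext
    · show -(s.1 * d.2 + s.2 * d.1) = -s.2 * d.1 - s.1 * d.2
      ring
    · show s.1 * d.1 - s.2 * d.2 = -s.2 * d.2 + s.1 * d.1
      ring
  · apply Prod.ext
    · show -(s.1 * d.1 - s.2 * d.2) = -s.1 * d.1 - -s.2 * d.2
      ring
    · show -(s.1 * d.2 + s.2 * d.1) = -s.1 * d.2 + -s.2 * d.1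
      ring
  · apply Prod.ext
    · show s.1 * d.2 + s.2 * d.1 = s.2 * d.1 - -s.1 * d.2
      ring
    · show -(s.1 * d.1 - s.2 * d.2) = s.2 * d.2 + -s.1 * d.1
      ring

/-- the cosets -/
def st (d : ℤ × ℤ) : Setoid (ℤ × ℤ) where
  r p p' := ∃ q, p = p' + io d q
  iseqv := {
    refl := fun p => ⟨0, by rw [io_zero, add_zero]⟩
    symm := by
      rintro p p' ⟨q, h⟩
      exact ⟨-q, by rw [io_neg, h]; abel⟩
    trans := by
      rintro a b c ⟨q, h⟩ ⟨q', h'⟩
      exact ⟨q' + q, by rw [h, h', io_add]; abel⟩ }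

/-- the chosen representative -/
noncomputable def rp (d p : ℤ × ℤ) : ℤ × ℤ := (Quotient.mk (st d) p).out

theorem rp_rel (d p : ℤ × ℤ) : ∃ q, p = rp d p + io d q := by
  have h : Quotient.mk (st d) p = Quotient.mk (st d) (rp d p) := (Quotient.out_eq _).symm
  exact Quotient.exact h

theorem rp_eq (d : ℤ × ℤ) {p p' : ℤ × ℤ} (h : ∃ q, p = p' + io d q) :
    rp d p = rp d p' := by
  have h1 : Quotient.mk (st d) p = Quotient.mk (st d) p' := Quotient.sound h
  unfold rp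
  rw [h1]

theorem rp_idem (d p : ℤ × ℤ) : rp d (rp d p) = rp d p :=
  (rp_eq d (rp_rel d p)).symm

end EMBx

open EMBx

theorem t_EMB : S_EMB := by
  rintro S d hd ⟨Q, hQ⟩
  refine ⟨{x | ∃ t ρ, (x.1, t) ∈ Q ∧ rp d ρ = ρ ∧ x.2 = ρ + io d t}, ?_⟩
  intro p
  obtain ⟨q, hq⟩ := rp_rel d p
  obtain ⟨⟨⟨k, t⟩, s⟩, ⟨h1, h2, h3⟩, huniq⟩ := hQ q
  have h3' : rot k s + t = q := h3
  refine ⟨((k, rp d p + io d t), io d s),
    ⟨⟨t, rp d p, h1, rp_idem d p, rfl⟩, ⟨s, h2, rfl⟩, ?_⟩, ?_⟩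
  · show rot k (io d s) + (rp d p + io d t) = p
    rw [io_rot d k s]
    have h4 : io d (rot k s) + io d t = io d q := by rw [← io_add, h3']
    calc io d (rot k s) + (rp d p + io d t)
        = rp d p + (io d (rot k s) + io d t) := by abel
      _ = rp d p + io d q := by rw [h4]
      _ = p := hq.symm
  · rintro ⟨⟨k', c'⟩, s'⟩ ⟨⟨t', ρ, g1, g2, g3⟩, ⟨s'', g4, g6⟩, g5⟩
    have g1' : (k', t') ∈ Q := g1
    have g3' : c' = ρ + io d t' := g3
    have g6' : s' = io d s'' := g6.symm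
    have g5' : rot k' s' + c' = p := g5
    rw [g6', io_rot d k' s'', g3'] at g5'
    have hp : p = ρ + io d (rot k' s'' + t') := by
      rw [io_add, ← g5']
      abel
    have hr : rp d p = ρ := (rp_eq d ⟨_, hp⟩).trans g2
    have hq' : p = ρ + io d q := by
      rw [← hr]
      exact hq
    have hi : io d (rot k' s'' + t') = io d q := add_left_cancel (hp.symm.trans hq')
    have hj := io_inj hd hi
    have hu := huniq ((k', t'), s'') ⟨g1', g4, hj⟩
    simp only [Prod.mk.injEq] at hu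
    obtain ⟨⟨hu1, hu2⟩, hu3⟩ := hu
    rw [g6', g3', ← hr, hu1, hu2, hu3]

end R178.GT
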