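import Pool.Agent.R178.GT.Defs5

set_option autoImplicit false

namespace R178.GT

namespace EX2

/-- the row function -/
def row (V : ℤ) (u2 : ZMod 5) (r : ℤ) : ZMod 5 :=
  if r < V then 3 * u2 * (r : ZMod 5)
  else 3 * u2 * ((V : ZMod 5) - 1) + u2 - u2 * ((r : ZMod 5) - (V : ZMod 5))

def A (N V : ℤ) (u2 : ZMod 5) (x : ℤ) : ZMod 5 := -((x / N : ℤ) : ZMod 5) + row V u2 (x % N)

def v (N V : ℤ) (x : ℤ) : Bool := decide (x % N < V)

def b2 (b : Bool) : ZMod 5 := if b then 1 else 0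

theorem step (N V : ℤ) (u2 : ZMod 5) (hN : 0 < N) (hN5 : 5 ≤ N) (hNz : (N : ZMod 5) = 0)
    (hV1 : 1 ≤ V) (hV4 : V ≤ 4) (hV : u2 * (V : ZMod 5) = 1) (x : ℤ) :
    A N V u2 (x + 1) = A N V u2 x + u2 * (2 * b2 (v N V x) - 1 + 2 * b2 (v N V (x + 1))) := by
  have hx : x % N + N * (x / N) = x := Int.emod_add_mul_ediv x N
  have h0 : 0 ≤ x % N := Int.emod_nonneg x hN.ne'
  have h1 : x % N < N := Int.emod_lt_of_pos x hN
  by_cases hw : x % N = N - 1
  · obtain ⟨e1, e2⟩ := (Int.ediv_emod_unique (a := x + 1) (r := 0) (q := x / N + 1) hN).2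
      ⟨by linarith, le_refl _, hN⟩
    unfold A v b2 row
    rw [e1, e2, hw]
    have c1 : ¬ (N - 1 < V) := by omega
    have c2 : (0 : ℤ) < V := by omega
    simp only [c1, c2, if_true, if_false, decide_true, decide_false, Bool.false_eq_true]
    push_cast
    rw [hNz]
    have h5 : (5 : ZMod 5) = 0 := by decide
    linear_combination (-4 : ZMod 5) * hV - h5
  · obtain ⟨e1, e2⟩ := (Int.ediv_emod_unique (a := x + 1) (r := x % N + 1) (q := x / N) hN).2
      ⟨by linarith, by omega, by omega⟩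
    unfold A v b2 row
    rw [e1, e2]
    by_cases c1 : x % N + 1 < V
    · have c2 : x % N < V := by omega
      simp only [c1, c2, if_true, decide_true]
      push_cast
      ring
    · by_cases c2 : x % N < V
      · have c3 : x % N = V - 1 := by omega
        simp only [c1, c2, if_true, if_false, decide_true, decide_false, Bool.false_eq_true]
        rw [c3]
        push_cast
        ring
      · simp only [c1, c2, if_false, decide_false, Bool.false_eq_true]
        push_cast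
        ring

theorem nd : ∀ (a u : ZMod 5) (b : Bool), u ≠ 0 →
    [a, a + u, a - u, a - (2 * u) * (2 * b2 b - 1), a + (2 * u) * (2 * b2 b - 1)].Nodup := by
  decide

end EX2

open EX2 in
theorem t_EX2 : S_EX2 := by
  intro k u hk hu
  have hN : (0 : ℤ) < 5 ^ k := by positivity
  have hN5 : (5 : ℤ) ≤ 5 ^ k := by
    calc (5 : ℤ) = 5 ^ 1 := by norm_num
      _ ≤ 5 ^ k := pow_le_pow_right₀ (by norm_num) hk
  have hNz : (((5 : ℤ) ^ k : ℤ) : ZMod 5) = 0 := by
    push_cast
    have h5 : (5 : ZMod 5) = 0 := by decide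
    rw [h5, zero_pow (by omega)]
  obtain ⟨V, hV1, hV4, hV⟩ : ∃ V : ℤ, 1 ≤ V ∧ V ≤ 4 ∧ (2 * u) * (V : ZMod 5) = 1 := by
    fin_cases u
    · exact absurd rfl hu
    · exact ⟨3, by norm_num, by norm_num, by decide⟩
    · exact ⟨4, by norm_num, by norm_num, by decide⟩
    · exact ⟨1, by norm_num, by norm_num, by decide⟩
    · exact ⟨2, by norm_num, by norm_num, by decide⟩
  refine ⟨A (5 ^ k) V (2 * u), v (5 ^ k) V, -2 * (2 * u), ?_, ?_, ?_⟩
  · intro x
    have hd : (x + 5 ^ k) / 5 ^ k = x / 5 ^ k + 1 := by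
      have := Int.add_mul_ediv_right x 1 hN.ne'
      rwa [one_mul] at this
    unfold A
    rw [Int.add_emod_right, hd]
    push_cast
    ring
  · intro x
    unfold v
    rw [Int.add_emod_right]
  · intro z
    have hs := step (5 ^ k) V (2 * u) hN hN5 hNz hV1 hV4 hV
    have h1 := hs (z - 1)
    have h2 := hs z
    rw [sub_add_cancel] at h1
    have e1 : Lw (A (5 ^ k) V (2 * u)) (v (5 ^ k) V) (-2 * (2 * u)) z =
        A (5 ^ k) V (2 * u) z - (2 * u) * (2 * b2 (v (5 ^ k) V z) - 1) := by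
      unfold Lw
      rw [h1]
      cases h : v (5 ^ k) V (z - 1) <;> simp [b2] <;> ring
    have e2 : Up (A (5 ^ k) V (2 * u)) (v (5 ^ k) V) (-2 * (2 * u)) z =
        A (5 ^ k) V (2 * u) z + (2 * u) * (2 * b2 (v (5 ^ k) V z) - 1) := by
      unfold Up
      rw [h2]
      cases h : v (5 ^ k) V (z + 1) <;> simp [b2] <;> ring
    rw [e1, e2]
    exact nd _ _ _ hu

end R178.GT
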