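import Pool.Agent.R178.GT.Defs5

set_option autoImplicit false

namespace R178.GT

namespace EX3

/-- the row function -/
def row (V : ℤ) (u : ZMod 5) (r : ℤ) : ZMod 5 :=
  if r < V then 0 else 2 * u - u * ((r : ZMod 5) - (V : ZMod 5))

def A (N V : ℤ) (u : ZMod 5) (x : ℤ) : ZMod 5 := -((x / N : ℤ) : ZMod 5) + row V u (x % N)

def v (N V : ℤ) (x : ℤ) : Bool := decide (x % N < V)

def b3 (b : Bool) : ZMod 5 := if b then 1 else 0

theorem step (N V : ℤ) (u : ZMod 5) (hN : 0 < N) (hN5 : 5 ≤ N) (hNz : (N : ZMod 5) = 0)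
    (hV1 : 1 ≤ V) (hV4 : V ≤ 4) (hV : u * (V : ZMod 5) = -1) (x : ℤ) :
    A N V u (x + 1) = A N V u x + u * (-1 + 3 * b3 (v N V x) + 3 * b3 (v N V (x + 1))) := by
  have h5 : (5 : ZMod 5) = 0 := by decide
  have hx : x % N + N * (x / N) = x := Int.emod_add_mul_ediv x N
  have h0 : 0 ≤ x % N := Int.emod_nonneg x hN.ne'
  have h1 : x % N < N := Int.emod_lt_of_pos x hN
  by_cases hw : x % N = N - 1
  · obtain ⟨e1, e2⟩ := (Int.ediv_emod_unique (a := x + 1) (r := 0) (q := x / N + 1) hN).2
      ⟨by linarith, le_refl _, hN⟩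
    unfold A v b3 row
    rw [e1, e2, hw]
    have c1 : ¬ (N - 1 < V) := by omega
    have c2 : (0 : ℤ) < V := by omega
    simp only [c1, c2, if_true, if_false, decide_true, decide_false, Bool.false_eq_true]
    push_cast
    rw [hNz]
    linear_combination (-1 : ZMod 5) * hV - u * h5
  · obtain ⟨e1, e2⟩ := (Int.ediv_emod_unique (a := x + 1) (r := x % N + 1) (q := x / N) hN).2
      ⟨by linarith, by omega, by omega⟩
    unfold A v b3 row
    rw [e1, e2]
    by_cases c1 : x % N + 1 < V
    · have c2 : x % N < V := by omega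
      simp only [c1, c2, if_true, decide_true]
      push_cast
      linear_combination (-u) * h5
    · by_cases c2 : x % N < V
      · have c3 : x % N = V - 1 := by omega
        simp only [c1, c2, if_true, if_false, decide_true, decide_false, Bool.false_eq_true]
        rw [c3]
        push_cast
        ring
      · simp only [c1, c2, if_false, decide_false, Bool.false_eq_true]
        push_cast
        ring

theorem nd : ∀ (a u : ZMod 5) (b : Bool), u ≠ 0 →
    [a, a - u * (-1 + 3 * b3 b), a - u * (-1 + 3 * b3 b) + u, a + u * (-1 + 3 * b3 b),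
      a + u * (-1 + 3 * b3 b) - u].Nodup := by
  decide

end EX3

open EX3 in
theorem t_EX3 : S_EX3 := by
  intro k u hk hu
  have h5 : (5 : ZMod 5) = 0 := by decide
  have hN : (0 : ℤ) < 5 ^ k := by positivity
  have hN5 : (5 : ℤ) ≤ 5 ^ k := by
    calc (5 : ℤ) = 5 ^ 1 := by norm_num
      _ ≤ 5 ^ k := pow_le_pow_right₀ (by norm_num) hk
  have hNz : (((5 : ℤ) ^ k : ℤ) : ZMod 5) = 0 := by
    push_cast
    rw [h5, zero_pow (by omega)]
  obtain ⟨V, hV1, hV4, hV⟩ : ∃ V : ℤ, 1 ≤ V ∧ V ≤ 4 ∧ u * (V : ZMod 5) = -1 := by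
    fin_cases u
    · exact absurd rfl hu
    · exact ⟨4, by norm_num, by norm_num, by decide⟩
    · exact ⟨2, by norm_num, by norm_num, by decide⟩
    · exact ⟨3, by norm_num, by norm_num, by decide⟩
    · exact ⟨1, by norm_num, by norm_num, by decide⟩
  refine ⟨A (5 ^ k) V u, v (5 ^ k) V, 2 * u, ?_, ?_, ?_⟩
  · intro x
    have hd : (x + 5 ^ k) / 5 ^ k = x / 5 ^ k + 1 := by
      have := Int.add_mul_ediv_right x 1 hN.ne'
      rwa [one_mul] at this
    unfold A
    rw [Int.add_emod_right, hd]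
    push_cast
    ring
  · intro x
    unfold v
    rw [Int.add_emod_right]
  · intro z
    have hs := step (5 ^ k) V u hN hN5 hNz hV1 hV4 hV
    have h1 := hs (z - 1)
    have h2 := hs z
    rw [sub_add_cancel] at h1
    have e1 : Lw (A (5 ^ k) V u) (v (5 ^ k) V) (2 * u) z =
        A (5 ^ k) V u z - u * (-1 + 3 * b3 (v (5 ^ k) V z)) := by
      unfold Lw
      rw [h1]
      cases h : v (5 ^ k) V (z - 1)
      · simp [b3]
      · have : b3 true = 1 := rfl
        simp only [this, if_true]
        linear_combination (-u) * h5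
    have e2 : Up (A (5 ^ k) V u) (v (5 ^ k) V) (2 * u) z =
        A (5 ^ k) V u z + u * (-1 + 3 * b3 (v (5 ^ k) V z)) := by
      unfold Up
      rw [h2]
      cases h : v (5 ^ k) V (z + 1)
      · simp [b3]
      · have : b3 true = 1 := rfl
        simp only [this, if_true]
        linear_combination u * h5
    rw [e1, e2]
    exact nd _ _ _ hu

end R178.GT
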