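import Mathlib
import Pool.Agent.R178.GT.Defs5

set_option autoImplicit false

namespace R178.GT

theorem t_MAIN5 (h1 : S_GLUE) (h2 : S_TR) (h3 : S_SYM5) : S_MAIN5 := by
  rintro S hS ⟨c, hc⟩
  obtain ⟨q, hq, hqc⟩ : ∃ q ∈ S, c - q = q := by
    by_contra hno
    push Not at hno
    have hs : ∑ x ∈ S, (1 : ZMod 2) = 0 := by
      refine Finset.sum_involution (fun a _ => c - a) ?_ ?_ ?_ ?_
      · intro a _
        decide
      · intro a ha _
        exact hno a ha
      · intro a ha
        exact hc a ha
      · intro a ha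
        simp
    rw [Finset.sum_const, hS] at hs
    exact absurd hs (by decide)
  have hc' : c = q + q := sub_eq_iff_eq_add.1 hqc
  obtain ⟨x, hx⟩ : (S.erase q).Nonempty := by
    rw [← Finset.card_pos, Finset.card_erase_of_mem hq, hS]
    norm_num
  obtain ⟨hxq, hxS⟩ := Finset.mem_erase.1 hx
  obtain ⟨y, hy⟩ : (((S.erase q).erase x).erase (c - x)).Nonempty := by
    rw [← Finset.card_pos]
    have e1 := Finset.pred_card_le_card_erase (s := (S.erase q).erase x) (a := c - x)
    have e2 := Finset.pred_card_le_card_erase (s := S.erase q) (a := x)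
    have e3 := Finset.pred_card_le_card_erase (s := S) (a := q)
    omega
  simp only [Finset.mem_erase] at hy
  obtain ⟨hycx, hyx, hyq, hyS⟩ := hy
  have dbl : ∀ z : ℤ × ℤ, c - z = z → z = q := by
    intro z hz
    have e1 := congrArg Prod.fst hz
    have e2 := congrArg Prod.snd hz
    rw [hc'] at e1 e2
    simp only [Prod.fst_sub, Prod.fst_add, Prod.snd_sub, Prod.snd_add] at e1 e2
    apply Prod.ext
    · linarith
    · linarith
  have hcx : c - x ∈ S := hc x hxS
  have hcy : c - y ∈ S := hc y hyS
  have n1 : c - x ≠ q := by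
    intro h
    apply hxq
    have : x = c - q := by rw [← h]; abel
    rw [this, hqc]
  have n2 : c - y ≠ q := by
    intro h
    apply hyq
    have : y = c - q := by rw [← h]; abel
    rw [this, hqc]
  have n3 : x ≠ c - y := by
    intro h
    apply hycx
    rw [h]
    abel
  have n4 : c - x ≠ c - y := by
    intro h
    exact hyx (sub_right_injective h).symm
  have n5 : x ≠ c - x := fun h => hxq (dbl x h.symm)
  have n6 : y ≠ c - y := fun h => hyq (dbl y h.symm)
  have m1 : q ∉ ({x, c - x, y, c - y} : Finset (ℤ × ℤ)) := by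
    simp only [Finset.mem_insert, Finset.mem_singleton, not_or]
    exact ⟨hxq.symm, n1.symm, hyq.symm, n2.symm⟩
  have m2 : x ∉ ({c - x, y, c - y} : Finset (ℤ × ℤ)) := by
    simp only [Finset.mem_insert, Finset.mem_singleton, not_or]
    exact ⟨n5, hyx.symm, n3⟩
  have m3 : c - x ∉ ({y, c - y} : Finset (ℤ × ℤ)) := by
    simp only [Finset.mem_insert, Finset.mem_singleton, not_or]
    exact ⟨hycx.symm, n4⟩
  have hcard : ({q, x, c - x, y, c - y} : Finset (ℤ × ℤ)).card = 5 := by
    rw [Finset.card_insert_of_notMem m1, Finset.card_insert_of_notMem m2,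
      Finset.card_insert_of_notMem m3, Finset.card_pair n6]
  have hsub : ({q, x, c - x, y, c - y} : Finset (ℤ × ℤ)) ⊆ S := by
    intro z hz
    simp only [Finset.mem_insert, Finset.mem_singleton] at hz
    rcases hz with h | h | h | h | h <;> rw [h] <;> assumption
  have hSeq : ({q, x, c - x, y, c - y} : Finset (ℤ × ℤ)) = S :=
    Finset.eq_of_subset_of_card_le hsub (by rw [hS, hcard])
  have hRT : RT {0, x - q, -(x - q), y - q, -(y - q)} := by
    refine h3 (x - q) (y - q) (sub_ne_zero.2 hxq) (sub_ne_zero.2 hyq) ?_ ?_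
    · intro h
      exact hyx (sub_left_injective h).symm
    · intro h
      apply n3
      have : x = -(y - q) + q := by rw [← h]; abel
      rw [this, hc']
      abel
  have hT := h2 _ q hRT
  have himg : (fun p : ℤ × ℤ => p + q) '' {0, x - q, -(x - q), y - q, -(y - q)} =
      (S : Set (ℤ × ℤ)) := by
    rw [← hSeq]
    have e1 : -(x - q) + q = c - x := by rw [hc']; abel
    have e2 : -(y - q) + q = c - y := by rw [hc']; abel
    simp only [Set.image_insert_eq, Set.image_singleton, zero_add, sub_add_cancel,
      Finset.coe_insert, Finset.coe_singleton, e1, e2]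
  rw [himg] at hT
  exact h1 _ ⟨q, by exact_mod_cast hq⟩ hT

end R178.GT
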