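import Mathlib
import Pool.Agent.R178.GT.Defs5

namespace R178.GT

theorem t_P5C : S_P5C := by
  intro a b ha hb hab hab'
  -- centres `(x, y)` with `5 ∣ x`, no rotation
  refine ⟨{q | q.1 = 0 ∧ (5 : ℤ) ∣ q.2.1}, ?_⟩
  intro p
  -- residues
  have hres : ∃ s : ℤ, (s = 0 ∨ s = a ∨ s = -a ∨ s = b ∨ s = -b) ∧ (5 : ℤ) ∣ p.1 - s ∧
      ∀ s' : ℤ, (s' = 0 ∨ s' = a ∨ s' = -a ∨ s' = b ∨ s' = -b) → (5 : ℤ) ∣ p.1 - s' → s' = s := by
    have key : ∀ s s' : ℤ, (s = 0 ∨ s = a ∨ s = -a ∨ s = b ∨ s = -b) →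
        (s' = 0 ∨ s' = a ∨ s' = -a ∨ s' = b ∨ s' = -b) → (5 : ℤ) ∣ s - s' → s = s' := by
      rintro s s' (rfl | rfl | rfl | rfl | rfl) (rfl | rfl | rfl | rfl | rfl) h <;>
        first
        | rfl
        | (exfalso; omega)
    have hex : (5 : ℤ) ∣ p.1 - 0 ∨ (5 : ℤ) ∣ p.1 - a ∨ (5 : ℤ) ∣ p.1 - -a ∨ (5 : ℤ) ∣ p.1 - b ∨
        (5 : ℤ) ∣ p.1 - -b := by
      have ha5 : a % 5 = 1 ∨ a % 5 = 2 ∨ a % 5 = 3 ∨ a % 5 = 4 := by omega
      have hb5 : b % 5 = 1 ∨ b % 5 = 2 ∨ b % 5 = 3 ∨ b % 5 = 4 := by omega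
      have hp5 : p.1 % 5 = 0 ∨ p.1 % 5 = 1 ∨ p.1 % 5 = 2 ∨ p.1 % 5 = 3 ∨ p.1 % 5 = 4 := by omega
      generalize p.1 = z at *
      rcases ha5 with h1 | h1 | h1 | h1 <;> rcases hb5 with h2 | h2 | h2 | h2 <;>
        first
        | (exfalso; omega)
        | (rcases hp5 with h3 | h3 | h3 | h3 | h3 <;>
            first
            | (left; omega)
            | (right; left; omega)
            | (right; right; left; omega)
            | (right; right; right; left; omega)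
            | (right; right; right; right; omega))
    rcases hex with h | h | h | h | h
    · exact ⟨0, by simp, h, fun s' hs' h' => key _ _ hs' (by simp) (by
        have := dvd_sub h h'
        have e : p.1 - 0 - (p.1 - s') = s' - 0 := by ring
        rwa [e] at this)⟩
    · exact ⟨a, by simp, h, fun s' hs' h' => key _ _ hs' (by simp) (by
        have := dvd_sub h h'
        have e : p.1 - a - (p.1 - s') = s' - a := by ring
        rwa [e] at this)⟩
    · exact ⟨-a, by simp, h, fun s' hs' h' => key _ _ hs' (by simp) (by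
        have := dvd_sub h h'
        have e : p.1 - -a - (p.1 - s') = s' - -a := by ring
        rwa [e] at this)⟩
    · exact ⟨b, by simp, h, fun s' hs' h' => key _ _ hs' (by simp) (by
        have := dvd_sub h h'
        have e : p.1 - b - (p.1 - s') = s' - b := by ring
        rwa [e] at this)⟩
    · exact ⟨-b, by simp, h, fun s' hs' h' => key _ _ hs' (by simp) (by
        have := dvd_sub h h'
        have e : p.1 - -b - (p.1 - s') = s' - -b := by ring
        rwa [e] at this)⟩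
  obtain ⟨s, hs, hs5, huniq⟩ := hres
  have hL : ∀ x : ℤ × ℤ, x ∈ L5 a b ↔ x.2 = 0 ∧ (x.1 = 0 ∨ x.1 = a ∨ x.1 = -a ∨ x.1 = b ∨
      x.1 = -b) := by
    intro x
    obtain ⟨x1, x2⟩ := x
    simp only [L5, Set.mem_insert_iff, Set.mem_singleton_iff, Prod.mk.injEq]
    tauto
  refine ⟨((0, (p.1 - s, p.2)), (s, 0)), ⟨⟨rfl, hs5⟩, (hL _).2 ⟨rfl, hs⟩, ?_⟩, ?_⟩
  · simp only [rot]
    ext <;> simp
  · rintro ⟨⟨k, t⟩, x⟩ ⟨⟨hk, ht⟩, hx, he⟩
    simp only at hk ht hx he
    subst hk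
    obtain ⟨hx2, hx1⟩ := (hL x).1 hx
    simp only [rot] at he
    have e1 : x.1 + t.1 = p.1 := congrArg Prod.fst he
    have e2 : x.2 + t.2 = p.2 := congrArg Prod.snd he
    have e3 : x.1 = s := by
      apply huniq _ hx1
      have : p.1 - x.1 = t.1 := by omega
      rwa [this]
    have e4 : t = (p.1 - s, p.2) := by
      ext
      · show t.1 = p.1 - s
        omega
      · show t.2 = p.2
        omega
    have e5 : x = (s, 0) := by
      ext
      · exact e3
      · exact hx2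
    rw [e4, e5]

end R178.GT
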