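import Mathlib
import Pool.Agent.R178.GT.Defs5

namespace R178.GT

namespace Slots

theorem slots (A : ℤ → ZMod 5) (v : ℤ → Bool) (y : ℤ × ℤ → ℤ) (S : Set (ℤ × ℤ))
    (e e' : Fin 5 → ℤ)
    (hS : ∀ s, s ∈ S ↔ ∃ j, s = (e j, 0)) (hS' : ∀ s, s ∈ S ↔ ∃ j, s = (e' j, 0))
    (H : ∀ p, ∃ (τ : Fin 5 → Bool) (val : Fin 5 → ZMod 5), Function.Injective val ∧
      (∀ j, (A (y (p - (e j, 0))) = 0 ∧ v (y (p - (e j, 0))) = false) ↔ (τ j = false ∧ val j = 0)) ∧
      (∀ j, (A (y (p - (0, e' j))) = 0 ∧ v (y (p - (0, e' j))) = true) ↔ (τ j = true ∧ val j = 0))) :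
    RT S := by
  refine ⟨{q | (q.1 = 0 ∧ A (y q.2) = 0 ∧ v (y q.2) = false) ∨
    (q.1 = 1 ∧ A (y q.2) = 0 ∧ v (y q.2) = true)}, ?_⟩
  intro p
  obtain ⟨τ, val, hval, hX, hY⟩ := H p
  have hsurj : Function.Surjective val :=
    ((Fintype.bijective_iff_injective_and_card val).2 ⟨hval, by simp [ZMod.card]⟩).2
  obtain ⟨j, hj⟩ := hsurj 0
  rcases hτ : τ j with _ | _
  · refine ⟨((0, p - (e j, 0)), (e j, 0)), ⟨?_, (hS _).2 ⟨j, rfl⟩, ?_⟩, ?_⟩
    · left
      exact ⟨rfl, (hX j).2 ⟨hτ, hj⟩⟩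
    · simp [rot]
    · rintro ⟨⟨k, t⟩, s⟩ ⟨hq, hs, hp⟩
      rcases hq with ⟨hk, hA⟩ | ⟨hk, hA⟩
      · simp only at hk hp hA hs
        subst hk
        obtain ⟨i, rfl⟩ := (hS s).1 hs
        have ht : t = p - (e i, 0) := by rw [← hp]; simp [rot]
        rw [ht] at hA
        have := (hX i).1 hA
        have hij : i = j := hval (this.2.trans hj.symm)
        subst hij
        rw [ht]
      · simp only at hk hp hA hs
        subst hk
        obtain ⟨i, rfl⟩ := (hS' s).1 hs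
        have ht : t = p - (0, e' i) := by rw [← hp]; simp [rot]
        rw [ht] at hA
        have := (hY i).1 hA
        have hij : i = j := hval (this.2.trans hj.symm)
        subst hij
        rw [hτ] at this
        simp at this
  · refine ⟨((1, p - (0, e' j)), (e' j, 0)), ⟨?_, (hS' _).2 ⟨j, rfl⟩, ?_⟩, ?_⟩
    · right
      exact ⟨rfl, (hY j).2 ⟨hτ, hj⟩⟩
    · simp [rot]
    · rintro ⟨⟨k, t⟩, s⟩ ⟨hq, hs, hp⟩
      rcases hq with ⟨hk, hA⟩ | ⟨hk, hA⟩
      · simp only at hk hp hA hs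
        subst hk
        obtain ⟨i, rfl⟩ := (hS s).1 hs
        have ht : t = p - (e i, 0) := by rw [← hp]; simp [rot]
        rw [ht] at hA
        have := (hX i).1 hA
        have hij : i = j := hval (this.2.trans hj.symm)
        subst hij
        rw [hτ] at this
        simp at this
      · simp only at hk hp hA hs
        subst hk
        obtain ⟨i, rfl⟩ := (hS' s).1 hs
        have ht : t = p - (0, e' i) := by rw [← hp]; simp [rot]
        rw [ht] at hA
        have := (hY i).1 hA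
        have hij : i = j := hval (this.2.trans hj.symm)
        subst hij
        rw [ht]

theorem quasi {k : ℕ} {A : ℤ → ZMod 5} (hA : ∀ x, A (x + 5 ^ k) = A x - 1) (z m : ℤ) :
    A (z + 5 ^ k * m) = A z - (m : ZMod 5) := by
  induction m using Int.induction_on with
  | zero => simp
  | succ i ih =>
    have : z + 5 ^ k * ((i : ℤ) + 1) = (z + 5 ^ k * i) + 5 ^ k := by ring
    rw [this, hA, ih]; push_cast; ring
  | pred i ih =>
    have h2 : A (z + 5 ^ k * (-(i : ℤ))) = A (z + 5 ^ k * (-(i : ℤ) - 1)) - 1 := by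
      rw [← hA]; congr 1; ring
    rw [ih] at h2
    have : A (z + 5 ^ k * (-(i : ℤ) - 1)) = A z - ((-(i : ℤ) : ℤ) : ZMod 5) + 1 := by
      rw [h2]; ring
    rw [this]; push_cast; ring

theorem per {k : ℕ} {v : ℤ → Bool} (hv : ∀ x, v (x + 5 ^ k) = v x) (z m : ℤ) :
    v (z + 5 ^ k * m) = v z := by
  induction m using Int.induction_on with
  | zero => simp
  | succ i ih =>
    have : z + 5 ^ k * ((i : ℤ) + 1) = (z + 5 ^ k * i) + 5 ^ k := by ring
    rw [this, hv, ih]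
  | pred i ih =>
    have h2 : v (z + 5 ^ k * (-(i : ℤ))) = v (z + 5 ^ k * (-(i : ℤ) - 1)) := by
      rw [← hv (z + 5 ^ k * (-(i : ℤ) - 1))]; congr 1; ring
    rw [← h2, ih]

end Slots

end R178.GT
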